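import Pool.Agent.Lib.MP_e3e9c0_co.Draw

/-!
# Every connected combinatorial (n_3) configuration with n at least 9 is realizable by pseudolines
-/

namespace Pool.Agent.Results.MP_e3e9c0_co.Realizable

open PL3

section
variable {P : Type*} [Fintype P] [DecidableEq P] {𝓛 : Finset (Finset P)} {n : ℕ}

/-- the incidence relation -/
def incd (𝓛 : Finset (Finset P)) (p : P) (l : {l // l ∈ 𝓛}) : Prop := p ∈ l.1

lemma config_of (h : IsConfiguration 𝓛 n) : Config (incd 𝓛) where
  lin i j hij p q hpi hpj hqi hqj := by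
    by_contra hpq
    have h1 := Finset.card_le_one.1 (h.two_points p q hpq) i.1
      (Finset.mem_filter.2 ⟨i.2, hpi, hqi⟩) j.1 (Finset.mem_filter.2 ⟨j.2, hpj, hqj⟩)
    exact hij (Subtype.ext h1)
  lines p := by
    obtain ⟨a, b, c, hab, hac, hbc, he⟩ := Finset.card_eq_three.1 (h.point_degree p)
    have ha : a ∈ 𝓛 := (Finset.mem_filter.1 (he ▸ (by simp : a ∈ ({a, b, c} : Finset _)))).1
    have hb : b ∈ 𝓛 := (Finset.mem_filter.1 (he ▸ (by simp : b ∈ ({a, b, c} : Finset _)))).1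
    have hc : c ∈ 𝓛 := (Finset.mem_filter.1 (he ▸ (by simp : c ∈ ({a, b, c} : Finset _)))).1
    refine ⟨⟨a, ha⟩, ⟨b, hb⟩, ⟨c, hc⟩, fun e => hab (congrArg Subtype.val e),
      fun e => hac (congrArg Subtype.val e), fun e => hbc (congrArg Subtype.val e), fun l => ?_⟩
    have h1 : l.1 ∈ 𝓛.filter (fun l => p ∈ l) ↔ l.1 ∈ ({a, b, c} : Finset (Finset P)) := by
      rw [he]
    rw [Finset.mem_filter, Finset.mem_insert, Finset.mem_insert, Finset.mem_singleton] at h1
    show p ∈ l.1 ↔ _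
    rw [Subtype.ext_iff, Subtype.ext_iff, Subtype.ext_iff]
    constructor
    · intro h2; exact h1.1 ⟨l.2, h2⟩
    · intro h2; exact (h1.2 h2).2
  points l := by
    obtain ⟨a, b, c, hab, hac, hbc, he⟩ := Finset.card_eq_three.1 (h.line_card l.1 l.2)
    refine ⟨a, b, c, hab, hac, hbc, fun x => ?_⟩
    show x ∈ l.1 ↔ _
    rw [he]
    simp

omit [Fintype P] [DecidableEq P] in
lemma conn_of (hconn : (leviGraph 𝓛).Connected) : Conn (incd 𝓛) := by
  intro S hne hS
  obtain ⟨l₀, hl₀⟩ := hne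
  rw [Finset.eq_univ_iff_forall]
  intro l
  let Q : P ⊕ {l // l ∈ 𝓛} → Prop := fun x =>
    (∀ l, x = Sum.inr l → l ∈ S) ∧ (∀ p, x = Sum.inl p → ∀ l, incd 𝓛 p l → l ∈ S)
  have hstep : ∀ x y, (leviGraph 𝓛).Adj x y → Q x → Q y := by
    intro x y hxy hx
    unfold leviGraph at hxy
    rw [SimpleGraph.fromRel_adj] at hxy
    obtain ⟨_, ⟨p, m, rfl, rfl, hpm⟩ | ⟨p, m, rfl, rfl, hpm⟩⟩ := hxy
    · refine ⟨fun m' hm' => ?_, fun p' hp' => ?_⟩
      · have e : m = m' := Sum.inr.inj hm'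
        subst e
        exact hx.2 p rfl m hpm
      · simp at hp'
    · refine ⟨fun m' hm' => ?_, fun p' hp' m' hm' => ?_⟩
      · simp at hm'
      · have e : p = p' := Sum.inl.inj hp'
        subst e
        exact hS m (hx.1 m rfl) p hpm m' hm'
  have hQ₀ : Q (Sum.inr l₀) := ⟨fun l hl => by
    have e : l₀ = l := Sum.inr.inj hl
    subst e
    exact hl₀, fun p hp => by simp at hp⟩
  have hQ : Q (Sum.inr l) := by
    obtain ⟨w⟩ := hconn.preconnected (Sum.inr l₀) (Sum.inr l)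
    have : ∀ {x y : P ⊕ {l // l ∈ 𝓛}}, (leviGraph 𝓛).Walk x y → Q x → Q y := by
      intro x y w
      induction w with
      | nil => exact id
      | cons hadj _ ih => exact fun h => ih (hstep _ _ hadj h)
    exact this w hQ₀
  exact hQ.1 l rfl

end

/-- **Full positive answer to Q1.**  For every `n ≥ 9`, every connected combinatorial `(n_3)`
configuration has a realization as a topological configuration. -/
theorem result (n : ℕ) (hn : 9 ≤ n) (P : Type*) [Fintype P] [DecidableEq P]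
    (𝓛 : Finset (Finset P)) (hconf : IsConfiguration 𝓛 n) (hconn : (leviGraph 𝓛).Connected) :
    ∃ (pos : P → RP2) (C : {l // l ∈ 𝓛} → Set RP2), IsRealization 𝓛 pos C := by
  have hc : Config (incd 𝓛) := config_of hconf
  have hd : DrawnZ (incd 𝓛) :=
    main_drawn (incd 𝓛) hc (conn_of hconn) (by rw [hconf.card_points]; exact hn)
  obtain ⟨pos, C, h1, h2, h3, h4⟩ := realize_RP2 (incd 𝓛) hc hd
  refine ⟨pos, C, h1, ?_, h2, h3, h4⟩
  intro l m hlm
  apply Subtype.ext
  have h5 : ∀ p, p ∈ l.1 ↔ p ∈ m.1 := fun p =>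
    (h4 p l).symm.trans ((by rw [hlm] : pos p ∈ C l ↔ pos p ∈ C m).trans (h4 p m))
  exact Finset.ext h5

end Pool.Agent.Results.MP_e3e9c0_co.Realizable
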